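import Pool.Agent.MWKP.Stmts
import Pool.Agent.Helper46_MWKP.LVE

/-!
# MWKP, row TEL (helper65)
-/

set_option autoImplicit false

namespace Pool.Agent.MWKP.H65

open Pool.Agent.Helper14_MV Pool.Agent.Helper2_MV Pool.Agent.MWK Pool.Agent.MWKP

theorem wt_zero65 (θ : FIC) : WT 0 θ := by
  intro P X Q _
  have : P ++ pw 0 X ++ Q = P ++ Q := by simp [pw]
  rw [this]
  exact RR.refl _

theorem wr_zero65 (k : ℕ) (θ : FIC) : WR k 0 θ := by
  intro P X C qs R _ _ _
  have : P ++ pw 0 X ++ C ++ qs.flatten ++ R = P ++ C ++ pw 0 X ++ qs.flatten ++ R := by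
    simp [pw]
  rw [this]
  exact RR.refl _

theorem df_self65 {n : ℕ} (hn : 1 ≤ n) (a : ℕ) : df n a a ≡ 0 + 0 [MOD n] := by
  unfold df
  obtain ⟨m, rfl⟩ : ∃ m, n = m + 1 := ⟨n - 1, by omega⟩
  have : a + (m + 1 - 1) * a = (m + 1) * a := by
    rw [Nat.add_sub_cancel]; ring
  rw [this]
  exact (Nat.modEq_zero_iff_dvd).2 (dvd_mul_right _ _)

theorem df_add65 {n : ℕ} (hn : 1 ≤ n) (a b c : ℕ) :
    df n a c ≡ df n a b + df n b c [MOD n] := by
  unfold df
  obtain ⟨m, rfl⟩ : ∃ m, n = m + 1 := ⟨n - 1, by omega⟩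
  have : a + (m + 1 - 1) * b + (b + (m + 1 - 1) * c) = a + (m + 1 - 1) * c + (m + 1) * b := by
    rw [Nat.add_sub_cancel]; ring
  rw [this]
  exact (Nat.ModEq.symm (Nat.add_mul_mod_self_left _ _ _))

theorem tel (hWra : WraStmt) (hTot : TotStmt) (hRbt : RbtStmt) (hLvn : LvnStmt)
    (hLvt : LvtStmt) (hAgt : AgtStmt) : TelStmt := by
  intro n ρ σ hρ hσ u v h
  have hn := hρ.pos
  refine ⟨?_, ?_⟩
  · intro x
    rcases H46.chain (ρ := ρ) (σ := σ) (E := fun p q => ∃ a b,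
      df n (p.count x) (q.count x) ≡ a + b [MOD n] ∧ WT a ρ ∧ WT b σ) (C := False)
      (fun p => ⟨0, 0, df_self65 hn _, wt_zero65 _, wt_zero65 _⟩)
      (by
        rintro p q r ⟨a, b, h1, h2, h3⟩ ⟨a', b', h1', h2', h3'⟩
        refine ⟨a + a', b + b', ?_, (hWra n ρ hρ).2.2.2.1 a a' h2 h2',
          (hWra n σ hσ).2.2.2.1 b b' h3 h3'⟩
        refine (df_add65 hn (p.count x) (q.count x) (r.count x)).trans ?_
        have h4 := h1.add h1'
        have e : a + b + (a' + b') = a + a' + (b + b') := by ring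
        rw [← e]
        exact h4)
      (fun p q hpq => Or.inl ⟨df n (p.count x) (q.count x), 0, Nat.ModEq.refl _,
        hTot n ρ hρ p q x hpq, wt_zero65 _⟩)
      (fun p q hpq => Or.inl ⟨0, df n (p.count x) (q.count x), by rw [Nat.zero_add],
        wt_zero65 _, hTot n σ hσ p q x hpq⟩) h with h1 | h1
    · exact h1
    · exact h1.elim
  · intro k y x hy hny
    by_cases hwρ : WF k ρ
    · exact ⟨_, 0, Nat.ModEq.refl _, ((hLvn n ρ hρ k).2.2.1 hwρ _), wr_zero65 _ _⟩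
    by_cases hwσ : WF k σ
    · exact ⟨0, _, by rw [Nat.zero_add], wr_zero65 _ _, ((hLvn n σ hσ k).2.2.1 hwσ _)⟩
    have hag : ∀ θ : FIC, Kn n θ → ¬ WF k θ → ∀ a b, RR θ a b → AgL k 0 a b := by
      intro θ hθ hw a b hab
      by_contra hc
      apply hw
      cases k with
      | zero => exact (hLvn n θ hθ 0).2.2.2 ((hLvt n θ hθ a b hab).1 hc)
      | succ k' =>
        exact (hLvn n θ hθ k').2.1 (((hLvt n θ hθ a b hab).2 k').2 hc)
    obtain ⟨hr, hs, ht⟩ := hAgt k 0 (by omega)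
    have hdag : ∀ a b, AgL k 0 a b → ∀ j ≤ k + 1, ∀ z, Dp j a z ↔ Dp j b z :=
      fun a b hab => T.dag k a b hab
    have hstep : ∀ θ : FIC, Kn n θ → ∀ a b, RR θ a b → AgL k 0 a b → Dp (k + 1) b y →
        ¬ Dp k b y → WR k (df n ((pre a y).count x) ((pre b y).count x)) θ := by
      intro θ hθ a b hab hA hd hnd
      obtain ⟨cs, hlen, hch, hdp⟩ := T.che k b y hd hnd
      have hya : y ∈ a := ((hdag a b hA (k + 1) (le_refl _) y).2 hd).mem
      have hca : Chc a [y] cs := T.trc k b a (hs a b hA) cs [y]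
        (fun c hc => (hdag a b hA k (by omega) c).2 (hdp c hc)) hch
      have h1 := hRbt n θ hθ a b x y cs hab hya hd.mem hca hch
      rwa [hlen] at h1
    rcases H46.chain (ρ := ρ) (σ := σ) (E := fun p q => AgL k 0 p q ∧ (Dp (k + 1) q y →
      ¬ Dp k q y → ∃ a b, df n ((pre p y).count x) ((pre q y).count x) ≡ a + b [MOD n] ∧
        WR k a ρ ∧ WR k b σ)) (C := False)
      (fun p => ⟨hr p, fun _ _ => ⟨0, 0, df_self65 hn _, wr_zero65 _ _, wr_zero65 _ _⟩⟩)
      (by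
        rintro p q r ⟨hpq, h1⟩ ⟨hqr, h2⟩
        refine ⟨ht p q r hpq hqr, fun hd hnd => ?_⟩
        have hd' : Dp (k + 1) q y := (hdag q r hqr (k + 1) (le_refl _) y).2 hd
        have hnd' : ¬ Dp k q y := fun h3 => hnd ((hdag q r hqr k (by omega) y).1 h3)
        obtain ⟨a, b, k1, k2, k3⟩ := h1 hd' hnd'
        obtain ⟨a', b', k1', k2', k3'⟩ := h2 hd hnd
        refine ⟨a + a', b + b', ?_, (hWra n ρ hρ).1 k a a' k2 k2',
          (hWra n σ hσ).1 k b b' k3 k3'⟩
        refine (df_add65 hn ((pre p y).count x) ((pre q y).count x) ((pre r y).count x)).trans ?_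
        have h4 := k1.add k1'
        have e : a + b + (a' + b') = a + a' + (b + b') := by ring
        rw [← e]
        exact h4)
      (fun p q hpq => by
        have hA := hag ρ hρ hwρ p q hpq
        exact Or.inl ⟨hA, fun hd hnd => ⟨_, 0, Nat.ModEq.refl _,
          hstep ρ hρ p q hpq hA hd hnd, wr_zero65 _ _⟩⟩)
      (fun p q hpq => by
        have hA := hag σ hσ hwσ p q hpq
        exact Or.inl ⟨hA, fun hd hnd => ⟨0, _, by rw [Nat.zero_add],
          wr_zero65 _ _, hstep σ hσ p q hpq hA hd hnd⟩⟩) h with h1 | h1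
    · exact h1.2 hy hny
    · exact h1.elim

end Pool.Agent.MWKP.H65
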