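import Pool.Agent.Helper10_MWKP.KDD
import Pool.Agent.Helper10_MWKP.KSW
import Pool.Agent.Helper19_MWKP.IPT
import Pool.Agent.Helper19_MWKP.MSM
import Pool.Agent.Helper19_MWKP.SPF
import Pool.Agent.Helper22_MWKP.PUR
import Pool.Agent.Helper23_MWKP.TOT
import Pool.Agent.Helper24_MWKP.IND
import Pool.Agent.Helper32_MWKP.DBT
import Pool.Agent.Helper33_MWKP.LVN
import Pool.Agent.Helper34_MWKP.LVT
import Pool.Agent.Helper36_MWKP.RBT
import Pool.Agent.Helper37_MWKP.ST2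
import Pool.Agent.Helper39_MWKP.ABT
import Pool.Agent.Helper39_MWKP.FBT
import Pool.Agent.Helper3_MWKP.DAT
import Pool.Agent.Helper46_MWKP.LVE
import Pool.Agent.Helper47_MWKP.FDG
import Pool.Agent.Helper49_MWKP.FNL
import Pool.Agent.Helper50_MWKP.FIN
import Pool.Agent.Helper51_MWKP.DGN
import Pool.Agent.Helper52_MWKP.KIT
import Pool.Agent.Helper58_MWKP.LVC
import Pool.Agent.Helper59_MWKP.ADJ
import Pool.Agent.Helper5_MWKP.WRA
import Pool.Agent.Helper60_MWKP.INA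
import Pool.Agent.Helper62_MWKP.ST1
import Pool.Agent.Helper65_MWKP.TEL
import Pool.Agent.Helper67_MWKP.LVX
import Pool.Agent.Helper6_MWKP.KPG
import Pool.Agent.Helper74_MWKP.KCL
import Pool.Agent.Helper77_MWKP.BBT
import Pool.Agent.Helper7_MWKP.INB
import Pool.Agent.Helper7_MWKP.RMN
import Pool.Agent.Helper81_MWKP.AGT
import Pool.Agent.Helper89_MWKP.TGN
import Pool.Agent.Helper98_MWKP.KMD

/-!
# Sufficiency of `K_n`: the composition of the rows of MWKP, no hypotheses (helper65)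
-/

set_option autoImplicit false

namespace Pool.Agent.MWKP.H65
open Pool.Agent.MWKP Pool.Agent.Helper14_MV
theorem cksw : KswStmt := Pool.Agent.MWKP.H10.ksw
theorem ckdd : KddStmt := Pool.Agent.MWKP.H10.kdd cksw
theorem ckpg : KpgStmt := Pool.Agent.MWKP.H6.kpg ckdd
theorem ckcl : KclStmt := Pool.Agent.MWKP.H74.kcl ckdd
theorem ckit : KitStmt := Pool.Agent.MWKP.H52.kit ckdd
theorem cspf : SpfStmt := Pool.Agent.MWKP.H19.spf
theorem cpur : PurStmt := Pool.Agent.MWKP.H22.pur ckdd ckit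
theorem cwra : WraStmt := Pool.Agent.MWKP.H5.wra ckdd
theorem ctot : TotStmt := Pool.Agent.MWKP.H23.tot ckdd
theorem crbt : RbtStmt := Pool.Agent.MWKP.H36.rbt ckdd cspf cpur
theorem cfbt : FbtStmt := Pool.Agent.MWKP.H39.fbt ckdd ckit cspf cpur
theorem cbbt : BbtStmt := Pool.Agent.MWKP.H77.bbt ckdd ckit cspf cpur
theorem cabt : AbtStmt := Pool.Agent.MWKP.H39.abt ckdd ckpg ckit cspf cpur
theorem cdbt : DbtStmt := Pool.Agent.MWKP.H32.dbt ckdd ckpg ckit cspf cpur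
theorem cdgn : DgnStmt := Pool.Agent.MWKP.H51.dgn
theorem clvn : LvnStmt := Pool.Agent.MWKP.H33.lvn ckdd ckpg ckcl
theorem clvc : LvcStmt := Pool.Agent.MWKP.H58.lvc clvn
theorem clvx : LvxStmt := Pool.Agent.MWKP.H67.lvx cfbt cbbt cdbt cabt
theorem clvt : LvtStmt := Pool.Agent.MWKP.H34.lvt clvx clvc clvn cdgn
theorem ctgn : TgnStmt := Pool.Agent.MWKP.H89.tgn
theorem cinb : InbStmt := Pool.Agent.MWKP.H7.inb ckdd
theorem cind : IndStmt := Pool.Agent.MWKP.H24.ind ckdd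
theorem cina : InaStmt := Pool.Agent.MWKP.H60.ina ckdd
theorem crmn : RmnStmt := Pool.Agent.MWKP.H7.rmn ckdd
theorem cipt : IptStmt := Pool.Agent.MWKP.H19.ipt
theorem cst1 : St1Stmt := Pool.Agent.MWKP.H62.st1 cinb cind cina
theorem cst2 : St2Stmt := Pool.Agent.MWKP.H37.st2 cipt
theorem cmsm : MsmStmt := Pool.Agent.MWKP.H19.msm cipt cst1 cst2
theorem cadj : AdjStmt := Pool.Agent.MWKP.H59.adj ckdd cwra crmn
theorem cdat : DatStmt := Pool.Agent.MWKP.H3.dat ckdd
theorem cfin : FinStmt := Pool.Agent.MWKP.H50.fin cwra clvc ctgn cmsm cadj cdat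
theorem cfnl : FnlStmt := Pool.Agent.MWKP.H49.fnl ckcl cadj cdat
theorem cfdg : FdgStmt := Pool.Agent.MWKP.H47.fdg ckdd ckcl cwra
theorem cagt : AgtStmt := Pool.Agent.MWKP.H81.agt
theorem clve : LveStmt := Pool.Agent.MWKP.H46.lve cagt clvt cdgn
theorem ctel : TelStmt := Pool.Agent.MWKP.H65.tel cwra ctot crbt clvn clvt cagt
theorem ckmd : KmdStmt := Pool.Agent.MWKP.H98.kmd cwra ctot crbt cdgn clvn clvc clvt cfin cfnl cfdg clve ctel

/-- **The lattice of fully invariant congruences above `K_n` is modular.** -/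
theorem kmod {n : ℕ} {β : FIC} (h : Kn n β) : ModF β := ckmd n β h

end Pool.Agent.MWKP.H65
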