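import Pool.Agent.MWKP.StmtsN
import Pool.Agent.MWZ.FullStmts

/-!
# The gamma world for period `n`: the shapes of the block theorems (helper65)
-/

set_option autoImplicit false

namespace Pool.Agent.MWKP.H65

open Pool.Agent.Helper14_MV Pool.Agent.Helper2_MV Pool.Agent.MWKP

/-- the hypotheses of part N from the literal ones -/
theorem gn_of {n : ℕ} {β : FIC} (hn : 1 ≤ n) (hp : MWZ.Per n (RR β)) (hncr : MWB.NCR β)
    (hg : MWZ.Ga n (RR β)) (hb : ¬ MWZ.Be n (RR β)) : Gn n β where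
  pos := hn
  per := hp
  ncr := hncr
  gm := hg
  nb := hb

/-- `K_n` from the literal identities -/
theorem kn_of {n : ℕ} {β : FIC} (hn : 1 ≤ n) (hg : MWZ.Ga n (RR β))
    (he : RR β [0, 0, 1] (0 :: 0 :: 1 :: List.replicate n 0)) (hc : Rn n β) : Kn n β where
  pos := hn
  g := hg
  e := he
  c := hc

/-- **Necessity in the gamma world for period `n`.** -/
theorem nec_of (hR : R0nStmt) (hX : NxnStmt) {n : ℕ} {β : FIC} (hn : 1 ≤ n)
    (hp : MWZ.Per n (RR β)) (hncr : MWB.NCR β) (hg : MWZ.Ga n (RR β)) (hb : ¬ MWZ.Be n (RR β))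
    (hm : ModF β) :
    (∀ a b : ℕ, 2 ≤ a → 2 ≤ b →
      RR β (List.replicate a 0 ++ List.replicate b 1) (List.replicate b 1 ++ List.replicate a 0)) ∧
      (Kn n β ∨ RR β [0, 1, 2, 0, 1] [1, 0, 2, 0, 1]) := by
  have H := gn_of hn hp hncr hg hb
  have h1 := hR n β hm H
  refine ⟨h1, ?_⟩
  rcases hX n β hm H (h1 (n + 1) (n + 1) (by omega) (by omega)) with h | h
  · exact Or.inl (kn_of hn hg h (h1 (n + 1) (n + 1) (by omega) (by omega)))
  · exact Or.inr h

end Pool.Agent.MWKP.H65
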