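import Pool.Agent.Helper10_MWKP.PWN
import Pool.Agent.Helper30_MWKP.R0N
import Pool.Agent.Helper39_MWKP.NEN
import Pool.Agent.Helper45_MWKP.NMN
import Pool.Agent.Helper47_MWKP.NXN
import Pool.Agent.Helper52_MWKP.NAN
import Pool.Agent.Helper62_MWKP.NDN
import Pool.Agent.Helper64_MWKP.CTN
import Pool.Agent.Helper66_MWKP.NRN
import Pool.Agent.Helper67_MWKP.NTN
import Pool.Agent.Helper75_MWKP.NPN
import Pool.Agent.Helper65_MWKP.NecShape

/-!
# The gamma world for period `n`: necessity, without hypotheses (helper65)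
-/

set_option autoImplicit false

namespace Pool.Agent.MWKP.H65
open Pool.Agent.MWKP
theorem cpwn : PwnStmt := Pool.Agent.MWKP.H10.pwn
theorem cctn : CtnStmt := Pool.Agent.MWKP.H64.ctn
theorem cntn : NtnStmt := Pool.Agent.MWKP.H67.ntn cpwn cctn
theorem cnan : NanStmt := Pool.Agent.MWKP.H52.nan cpwn cctn
theorem cnpn : NpnStmt := Pool.Agent.MWKP.H75.npn cctn cntn
theorem cnrn : NrnStmt := Pool.Agent.MWKP.H66.nrn cnan cnpn
theorem cr0n : R0nStmt := Pool.Agent.MWKP.H30.r0n cnrn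
theorem cnmn : NmnStmt := Pool.Agent.MWKP.H45.nmn cpwn cctn cntn
theorem cnen : NenStmt := Pool.Agent.MWKP.H39.nen
theorem cndn : NdnStmt := Pool.Agent.MWKP.H62.ndn cpwn cctn cntn
theorem cnxn : NxnStmt := Pool.Agent.MWKP.H47.nxn cnmn cnen cndn

open Pool.Agent.Helper14_MV Pool.Agent.Helper2_MV

/-- **Necessity in the gamma world for period `n`**: `x^a y^b ≈ y^b x^a` for `a, b ≥ 2`, and `K_n` or
`xytxy ≈ yxtxy`. -/
theorem nec {n : ℕ} {β : FIC} (hn : 1 ≤ n) (hp : MWZ.Per n (RR β)) (hncr : MWB.NCR β)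
    (hg : MWZ.Ga n (RR β)) (hb : ¬ MWZ.Be n (RR β)) (hm : ModF β) :
    (∀ a b : ℕ, 2 ≤ a → 2 ≤ b →
      RR β (List.replicate a 0 ++ List.replicate b 1) (List.replicate b 1 ++ List.replicate a 0)) ∧
      (Kn n β ∨ RR β [0, 1, 2, 0, 1] [1, 0, 2, 0, 1]) :=
  nec_of cr0n cnxn hn hp hncr hg hb hm

end Pool.Agent.MWKP.H65
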